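import Mathlib
import Pool.Agent.Helper353.Oct.Conn

/-!
# The interchange process mixes within `40 log n` mixing times of a single particle

For every finite connected graph on `n ≥ 2` vertices, every edge ringing at rate one, the total
variation mixing time of the interchange process is at most `40 log n` times that of the random
walk.
-/

open scoped BigOperators Matrix

namespace Pool.Agent.Results.MP_e2dfad_pr.InterchangeMixing

/-- Generator matrix of the random walk on `G`: the walk at `u` jumps across each edge at `u` at
rate one. -/
noncomputable def walkGen {V : Type*} [Fintype V] [DecidableEq V] (G : SimpleGraph V)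
    [DecidableRel G.Adj] : Matrix V V ℝ :=
  fun u v => (if G.Adj u v then 1 else 0) - (if u = v then (G.degree u : ℝ) else 0)

/-- Generator matrix of the interchange process on `G`. The states are the bijections of the
vertices with the labels `0, …, n - 1`. For each edge `{u, v}` the state `σ` moves at rate one to
the state in which the labels at `u` and `v` are swapped. The sum runs over ordered pairs of
adjacent vertices, so that every edge occurs twice, whence the factor `1 / 2`. -/
noncomputable def interchangeGen {V : Type*} [Fintype V] [DecidableEq V] (G : SimpleGraph V)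
    [DecidableRel G.Adj] :
    Matrix (V ≃ Fin (Fintype.card V)) (V ≃ Fin (Fintype.card V)) ℝ :=
  fun σ τ => 1 / 2 * ∑ u, ∑ v, if G.Adj u v then
    ((if (Equiv.swap u v).trans σ = τ then 1 else 0) - (if σ = τ then 1 else 0)) else 0

/-- The transition kernel at time `t` of the continuous-time chain with generator `Q`. -/
noncomputable def kernel {X : Type*} [Fintype X] [DecidableEq X] (Q : Matrix X X ℝ) (t : ℝ) :
    Matrix X X ℝ := NormedSpace.exp (t • Q)

/-- Total variation distance between the law at time `t` of the chain started from `x` and the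
uniform distribution. -/
noncomputable def tvDist {X : Type*} [Fintype X] [DecidableEq X] (Q : Matrix X X ℝ) (t : ℝ)
    (x : X) : ℝ := 1 / 2 * ∑ y, |kernel Q t x y - 1 / (Fintype.card X : ℝ)|

/-- The times at which the chain is mixed, from every starting state. -/
def mixed {X : Type*} [Fintype X] [DecidableEq X] (Q : Matrix X X ℝ) : Set ℝ :=
  {t : ℝ | 0 ≤ t ∧ ∀ x, tvDist Q t x ≤ 1 / 4}

/-- The total variation mixing time `inf {t ≥ 0 : max_x ‖P_t(x, ·) - π‖ ≤ 1 / 4}` of a chain whose
stationary distribution is uniform. -/
noncomputable def tmix {X : Type*} [Fintype X] [DecidableEq X] (Q : Matrix X X ℝ) : ℝ :=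
  sInf (mixed Q)

section Proof

open Pool.Agent.Helper353.Oct

variable {V : Type*} [Fintype V] [DecidableEq V] (G : SimpleGraph V) [DecidableRel G.Adj]

lemma walkGen_gen : Gen (walkGen G) := by
  refine ⟨fun u v => ?_, fun u v huv => ?_, fun u => ?_⟩
  · unfold walkGen
    by_cases h : u = v
    · subst h; rfl
    · simp only [G.adj_comm u v, if_neg h, if_neg (Ne.symm h)]
  · unfold walkGen
    rw [if_neg huv, sub_zero]
    split_ifs <;> norm_num
  · unfold walkGen
    rw [Finset.sum_sub_distrib, Finset.sum_ite_eq]
    simp only [Finset.mem_univ, if_true]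
    rw [← Finset.sum_filter, Finset.sum_const, nsmul_eq_mul, mul_one,
      ← SimpleGraph.card_neighborFinset_eq_degree, SimpleGraph.neighborFinset_eq_filter, sub_self]

lemma walk_mixed (hG : G.Connected) (hn : 2 ≤ Fintype.card V) : (mixed (walkGen G)).Nonempty := by
  have h := walkGen_gen G
  refine exists_mix h (by omega) fun x y => ?_
  refine Kt_pos h (R := G.Adj) (fun a b hab => ?_) x y ?_
  · unfold walkGen
    rw [if_pos hab, if_neg hab.ne]
    norm_num
  · obtain ⟨p⟩ := hG.preconnected x y
    induction p with
    | nil => exact Relation.ReflTransGen.refl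
    | cons h _ ih => exact Relation.ReflTransGen.head h ih

/-- identification of the states with permutations -/
noncomputable def st : Equiv.Perm V ≃ (V ≃ Fin (Fintype.card V)) where
  toFun g := (g⁻¹ : Equiv.Perm V).trans (Fintype.equivFin V)
  invFun σ := (σ.trans (Fintype.equivFin V).symm)⁻¹
  left_inv g := by
    ext v
    simp [Equiv.Perm.inv_def, Equiv.trans_assoc]
  right_inv σ := by
    ext v
    simp

lemma interchange_st (g h : Equiv.Perm V) :
    interchangeGen G (st g) (st h) = IW (fun x y => walkGen G x y) g h := by
  unfold interchangeGen IW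
  congr 1
  refine Finset.sum_congr rfl fun u _ => Finset.sum_congr rfl fun v _ => ?_
  have e1 : (Equiv.swap u v).trans (st g) = st (Equiv.swap u v * g) := by
    ext w
    simp [st, mul_inv_rev]
  rw [e1]
  simp only [EmbeddingLike.apply_eq_iff_eq]
  by_cases huv : u = v
  · subst huv
    have h1 : (Equiv.swap u u : Equiv.Perm V) = 1 := Equiv.swap_self u
    rw [h1, one_mul, if_neg (G.loopless.irrefl u), sub_self, mul_zero]
  · unfold walkGen
    rw [if_neg huv, sub_zero]
    split_ifs <;> simp

lemma interchange_mixed {t : ℝ} (ht : t ∈ mixed (walkGen G)) (hn : 2 ≤ Fintype.card V) :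
    40 * t * Real.log (Fintype.card V) ∈ mixed (interchangeGen G) := by
  obtain ⟨ht0, hmix⟩ := ht
  have hlog : 0 ≤ Real.log (Fintype.card V) :=
    Real.log_nonneg (by have : (2 : ℝ) ≤ Fintype.card V := by exact_mod_cast hn
                        linarith)
  refine ⟨by positivity, fun σ => ?_⟩
  obtain ⟨g, rfl⟩ := st.surjective σ
  have h1 := main_bound (walkGen_gen G) ht0 hn hmix g
  unfold tvDist
  refine le_trans (le_of_eq ?_) h1
  congr 1
  rw [← Equiv.sum_comp st]
  refine Finset.sum_congr rfl fun k _ => ?_
  congr 2
  · unfold kernel Kt
    refine exp_reindex st (fun x x' => ?_) g k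
    rw [Matrix.smul_apply, Matrix.smul_apply, interchange_st]
  · rw [Fintype.card_congr (st (V := V))]

lemma mixed_bdd {X : Type*} [Fintype X] [DecidableEq X] (Q : Matrix X X ℝ) :
    BddBelow (mixed Q) := ⟨0, fun _ h => h.1⟩

end Proof

/-- **The mixing time of the interchange process on a finite connected graph with `n ≥ 2` vertices
is at most `40 log n` times the mixing time of the random walk.** -/
theorem result {V : Type*} [Fintype V] [DecidableEq V] (G : SimpleGraph V) [DecidableRel G.Adj]
    (hG : G.Connected) (hn : 2 ≤ Fintype.card V) :
    tmix (interchangeGen G) ≤ 40 * tmix (walkGen G) * Real.log (Fintype.card V) := by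
  have hlog : 0 < Real.log (Fintype.card V) :=
    Real.log_pos (by have : (2 : ℝ) ≤ Fintype.card V := by exact_mod_cast hn
                     linarith)
  have h1 : tmix (interchangeGen G) / (40 * Real.log (Fintype.card V)) ≤ tmix (walkGen G) := by
    refine le_csInf (walk_mixed G hG hn) fun t ht => ?_
    rw [div_le_iff₀ (by positivity)]
    have h2 := csInf_le (mixed_bdd (interchangeGen G)) (interchange_mixed G ht hn)
    refine h2.trans (le_of_eq ?_)
    ring
  rw [div_le_iff₀ (by positivity)] at h1
  linarith

end Pool.Agent.Results.MP_e2dfad_pr.InterchangeMixing
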